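import Pool.Agent.H71.WE.Targets

/-!
# Row CS1: complete splitting on the same vertex set
-/

set_option autoImplicit false
set_option linter.unusedSectionVars false

namespace Pool.Agent.H59.WE

open Finset Pool.Agent.H71.WE

section
variable {V E : Type} [Fintype V] [DecidableEq V] [DecidableEq E]

theorem jn_self (G : Gr V E) (e : E) : Jn G e (G.s e) (G.t e) := Or.inl ⟨rfl, rfl⟩

theorem lf_co {G G1 : Gr V E} {A A1 : Finset E} {φ : E → Finset E} (h : Lf G A G1 A1 id φ)
    {F : Finset E} (hF : F ⊆ A1) {a b : V} (hc : Co G1 F a b) : Co G (F.biUnion φ) a b := by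
  intro X ha hb
  obtain ⟨e, he, hcr⟩ := hc X ha hb
  rcases hcr with ⟨h1, h2⟩ | ⟨h1, h2⟩
  · obtain ⟨g, hg, hgc⟩ := h.con e (hF he) X h1 h2
    exact ⟨g, mem_biUnion.2 ⟨e, he, hg⟩, hgc⟩
  · obtain ⟨g, hg, hgc⟩ := co_symm (h.con e (hF he)) X h2 h1
    exact ⟨g, mem_biUnion.2 ⟨e, he, hg⟩, hgc⟩

theorem lf_comp {G G1 G2 : Gr V E} {A A1 A2 : Finset E} {φ1 φ2 : E → Finset E}
    (h1 : Lf G A G1 A1 id φ1) (h2 : Lf G1 A1 G2 A2 id φ2) :
    Lf G A G2 A2 id (fun e => (φ2 e).biUnion φ1) := by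
  refine ⟨?_, ?_, ?_⟩
  · intro e he g hg
    obtain ⟨k, hk, hgk⟩ := mem_biUnion.1 hg
    exact h1.sub k (h2.sub e he hk) hgk
  · intro e he
    exact lf_co h1 (h2.sub e he) (h2.con e he)
  · intro e he e' he' hne
    refine disjoint_left.2 fun g hg hg' => ?_
    obtain ⟨k, hk, hgk⟩ := mem_biUnion.1 hg
    obtain ⟨k', hk', hgk'⟩ := mem_biUnion.1 hg'
    have hkk : k ≠ k' := fun h => (disjoint_left.1 (h2.dis e he e' he' hne)) hk (h ▸ hk')
    exact (disjoint_left.1 (h1.dis k (h2.sub e he hk) k' (h2.sub e' he' hk') hkk)) hgk hgk'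

/-- conclusion of complete splitting -/
def CSC (G : Gr V E) (A : Finset E) (z : V) (ρ : Finset V → ℕ) (p : E) : Prop :=
  ∃ (G' : Gr V E) (A' : Finset E) (φ : E → Finset E), A' ⊆ A ∧ p ∈ A' ∧
    Lf G A G' A' id φ ∧ (∀ e ∈ A', G'.s e ≠ z ∧ G'.t e ≠ z) ∧
    (∀ X : Finset V, z ∉ X → X.Nonempty → X ≠ univ.erase z → ρ X ≤ cn G' A' X) ∧
    (∀ e ∈ A, G.s e ≠ z → G.t e ≠ z →
      e ∈ A' ∧ G'.s e = G.s e ∧ G'.t e = G.t e ∧ φ e = {e}) ∧
    (∀ e ∈ A', G.s e = z ∨ G.t e = z →
      ∃ q ∈ A, q ≠ e ∧ φ e = {e, q} ∧ Jn G e z (G'.s e) ∧ Jn G q z (G'.t e)) ∧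
    (∀ x : V, x ≠ z → Even (cn G' A' {x} + cn G A {x}))

/-- no edge crosses `{z}` -/
theorem csc_zero {G : Gr V E} {A : Finset E} {z : V} {ρ : Finset V → ℕ} {p : E}
    (h0 : cn G A {z} = 0)
    (hcut : ∀ X : Finset V, z ∉ X → X.Nonempty → X ≠ univ.erase z → ρ X ≤ cn G A X)
    (hp : p ∈ A) (hpz : G.s p ≠ z ∨ G.t p ≠ z) : CSC G A z ρ p := by
  have hno : ∀ e ∈ A, (G.s e = z ↔ G.t e = z) := by
    intro e he
    have h1 : ¬ Cr G {z} e := by
      intro hc
      unfold cn at h0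
      rw [card_eq_zero, filter_eq_empty_iff] at h0
      exact h0 he hc
    unfold Cr at h1
    simp only [mem_singleton] at h1
    tauto
  have hcn : ∀ X : Finset V, cn G (A.filter (fun e => G.s e ≠ z)) X = cn G A X := by
    intro X
    unfold cn
    congr 1
    ext e
    simp only [mem_filter]
    constructor
    · rintro ⟨⟨h1, _⟩, h2⟩; exact ⟨h1, h2⟩
    · rintro ⟨h1, h2⟩
      refine ⟨⟨h1, fun h3 => ?_⟩, h2⟩
      have h4 := (hno e h1).1 h3
      unfold Cr at h2
      rw [h3, h4] at h2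
      tauto
  refine ⟨G, A.filter (fun e => G.s e ≠ z), fun e => {e}, filter_subset _ _, ?_, ?_, ?_, ?_,
    ?_, ?_, ?_⟩
  · refine mem_filter.2 ⟨hp, ?_⟩
    have := hno p hp
    tauto
  · refine ⟨?_, ?_, ?_⟩
    · intro e he
      exact singleton_subset_iff.2 (mem_filter.1 he).1
    · intro e he
      exact co_edge (jn_self G e)
    · intro e he e' he' hne
      exact disjoint_singleton.2 hne
  · intro e he
    obtain ⟨h1, h2⟩ := mem_filter.1 he
    exact ⟨h2, fun h => h2 ((hno e h1).2 h)⟩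
  · intro X h1 h2 h3
    rw [hcn X]; exact hcut X h1 h2 h3
  · intro e he h1 h2
    exact ⟨mem_filter.2 ⟨he, h1⟩, rfl, rfl, rfl⟩
  · intro e he h
    obtain ⟨h1, h2⟩ := mem_filter.1 he
    exfalso
    rcases h with h | h
    · exact h2 h
    · exact h2 ((hno e h1).2 h)
  · intro x hx
    rw [hcn {x}]
    exact ⟨_, rfl⟩

theorem csc_all (hadm : T_ADM) (hsp : T_SP1) (z : V) (ρ : Finset V → ℕ) (hρ : Rq z ρ) :
    ∀ (n : ℕ) (G : Gr V E) (A : Finset E), cn G A {z} = n → Even (cn G A {z}) →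
    (∀ X : Finset V, z ∉ X → X.Nonempty → X ≠ univ.erase z → ρ X ≤ cn G A X) →
    ∀ p ∈ A, (G.s p ≠ z ∨ G.t p ≠ z) → CSC G A z ρ p := by
  intro n
  induction n using Nat.strong_induction_on with
  | _ n ih =>
    intro G A hn hev hcut p hp hpz
    by_cases h0 : cn G A {z} = 0
    · exact csc_zero h0 hcut hp hpz
    -- the edge to be split
    have hp0 : ∃ p0 ∈ A, Cr G {z} p0 ∧ (Cr G {z} p → p0 = p) := by
      by_cases hc : Cr G {z} p
      · exact ⟨p, hp, hc, fun _ => rfl⟩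
      · obtain ⟨p0, hp0⟩ := card_pos.1 (Nat.pos_of_ne_zero h0)
        obtain ⟨h1, h2⟩ := mem_filter.1 hp0
        exact ⟨p0, h1, h2, fun h => absurd h hc⟩
    obtain ⟨p0, hp0A, hp0c, hp0p⟩ := hp0
    obtain ⟨y, hyz, hjy⟩ : ∃ y, y ≠ z ∧ Jn G p0 z y := by
      rcases hp0c with ⟨h1, h2⟩ | ⟨h1, h2⟩
      · exact ⟨G.t p0, fun h => h2 (mem_singleton.2 h), Or.inl ⟨mem_singleton.1 h1, rfl⟩⟩
      · exact ⟨G.s p0, fun h => h1 (mem_singleton.2 h), Or.inr ⟨rfl, mem_singleton.1 h2⟩⟩
    obtain ⟨q, hqA, hqp, y', hy'z, hjy', hadmX⟩ :=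
      hadm V E G A z ρ hρ hev hcut p0 hp0A y hjy hyz
    obtain ⟨hspX, hspL⟩ := hsp V E G A z y y' p0 q hp0A hqA hqp hjy hjy' hyz hy'z
    have hqz : G.s q = z ∨ G.t q = z := by
      rcases hjy' with ⟨h, _⟩ | ⟨_, h⟩
      · exact Or.inl h
      · exact Or.inr h
    have hp0z : G.s p0 = z ∨ G.t p0 = z := by
      rcases hjy with ⟨h, _⟩ | ⟨_, h⟩
      · exact Or.inl h
      · exact Or.inr h
    have hs0 : (spl G p0 y y').s p0 = y := by simp [spl]
    have ht0 : (spl G p0 y y').t p0 = y' := by simp [spl]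
    have hs1 : ∀ e, e ≠ p0 → (spl G p0 y y').s e = G.s e := fun e he => by simp [spl, he]
    have ht1 : ∀ e, e ≠ p0 → (spl G p0 y y').t e = G.t e := fun e he => by simp [spl, he]
    -- `p` is not `q`
    have hpq : p ≠ q := by
      intro h
      by_cases hc : Cr G {z} p
      · exact hqp (h ▸ (hp0p hc).symm)
      · apply hc
        unfold Cr
        simp only [mem_singleton]
        rw [← h] at hqz
        tauto
    have hnz : cn (spl G p0 y y') (A.erase q) {z} + 2 = cn G A {z} := by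
      have := hspX {z}
      rw [if_pos (Or.inl ⟨mem_singleton_self z, by rw [mem_singleton]; exact hyz,
        by rw [mem_singleton]; exact hy'z⟩)] at this
      exact this
    obtain ⟨G', A', φ2, k1, k2, k3, k4, k5, k6, k7, k8⟩ :=
      ih (cn (spl G p0 y y') (A.erase q) {z}) (by omega) (spl G p0 y y') (A.erase q) rfl
        (by rw [Nat.even_iff] at hev ⊢; omega)
        (by
          intro X h1 h2 h3
          have h4 := hspX X
          by_cases hyy : y ∈ X ∧ y' ∈ X
          · rw [if_pos (Or.inr ⟨h1, hyy⟩)] at h4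
            have := hadmX X h1 h3 hyy.1 hyy.2
            omega
          · rw [if_neg (by tauto)] at h4
            have := hcut X h1 h2 h3
            omega)
        p (mem_erase.2 ⟨hpq, hp⟩)
        (by
          by_cases hpp : p = p0
          · left; rw [hpp, hs0]; exact hyz
          · rw [hs1 p hpp, ht1 p hpp]; exact hpz)
    refine ⟨G', A', fun e => (φ2 e).biUnion (fun e => if e = p0 then {p0, q} else {e}),
      k1.trans (erase_subset q A), k2, lf_comp hspL k3, k4, k5, ?_, ?_, ?_⟩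
    · intro e he h1 h2
      have hep : e ≠ p0 := by
        intro h; subst h
        rcases hp0z with h | h
        · exact h1 h
        · exact h2 h
      have heq : e ≠ q := by
        intro h; subst h
        rcases hqz with h | h
        · exact h1 h
        · exact h2 h
      obtain ⟨m1, m2, m3, m4⟩ := k6 e (mem_erase.2 ⟨heq, he⟩) (by rw [hs1 e hep]; exact h1)
        (by rw [ht1 e hep]; exact h2)
      refine ⟨m1, m2.trans (hs1 e hep), m3.trans (ht1 e hep), ?_⟩
      simp only [m4, singleton_biUnion, if_neg hep]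
    · intro e he h
      by_cases hep : e = p0
      · subst hep
        obtain ⟨m1, m2, m3, m4⟩ := k6 e (k1 he) (by rw [hs0]; exact hyz)
          (by rw [ht0]; exact hy'z)
        refine ⟨q, hqA, hqp, ?_, ?_, ?_⟩
        · simp only [m4, singleton_biUnion, if_true]
        · rw [m2, hs0]; exact hjy
        · rw [m3, ht0]; exact hjy'
      · obtain ⟨q2, hq2, hq2e, m1, m2, m3⟩ := k7 e he
          (by rw [hs1 e hep, ht1 e hep]; exact h)
        have hq2p : q2 ≠ p0 := by
          intro h'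
          rw [h'] at m3
          rcases m3 with ⟨h4, _⟩ | ⟨_, h4⟩
          · rw [hs0] at h4; exact hyz h4
          · rw [ht0] at h4; exact hy'z h4
        refine ⟨q2, (mem_erase.1 hq2).2, hq2e, ?_, ?_, ?_⟩
        · simp only [m1, biUnion_insert, singleton_biUnion, if_neg hep, if_neg hq2p]
          rfl
        · unfold Jn at m2 ⊢
          rw [hs1 e hep, ht1 e hep] at m2
          exact m2
        · unfold Jn at m3 ⊢
          rw [hs1 q2 hq2p, ht1 q2 hq2p] at m3
          exact m3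
    · intro x hx
      have h1 := k8 x hx
      have h2 := hspX {x}
      rw [Nat.even_iff] at h1 ⊢
      split_ifs at h2 <;> omega

end

theorem pf_CS1 (h1 : T_ADM) (h2 : T_SP1) : T_CS1 := by
  intro V E iV iD iE G A z ρ hρ hev hcut p hp hpl
  refine csc_all h1 h2 z ρ hρ _ G A rfl hev hcut p hp ?_
  by_contra hcon
  push Not at hcon
  exact hpl (hcon.1.trans hcon.2.symm)

end Pool.Agent.H59.WE
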