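import Pool.Agent.H71.WE.Targets

/-!
# Row DA: two demands at one vertex
-/

set_option autoImplicit false
set_option linter.unusedSectionVars false

namespace Pool.Agent.H59.WE

open Finset Pool.Agent.H71.WE

section
variable {V E I : Type} [Fintype V] [DecidableEq V] [DecidableEq E] [DecidableEq I]

theorem card_filter_erase1 (p : I → Prop) [DecidablePred p] (J : Finset I) (i : I) (hi : i ∈ J) :
    (J.filter p).card = ((J.erase i).filter p).card + (if p i then 1 else 0) := by
  rw [← insert_erase hi, filter_insert, erase_insert_eq_erase]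
  have hni : i ∉ (J.erase i).erase i := fun h => (mem_erase.1 h).1 rfl
  rw [erase_idem]
  by_cases hp : p i
  · rw [if_pos hp, if_pos hp, card_insert_of_notMem]
    intro h
    exact (mem_erase.1 (mem_filter.1 h).1).1 rfl
  · rw [if_neg hp, if_neg hp, Nat.add_zero]

theorem tk_erase (a b : I → V) (J : Finset I) (v : V) (i : I) (hi : i ∈ J) :
    tk a b J v = tk a b (J.erase i) v + (if a i = v then 1 else 0) +
      (if b i = v then 1 else 0) := by
  unfold tk
  rw [card_filter_erase1 (fun k => a k = v) J i hi, card_filter_erase1 (fun k => b k = v) J i hi]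
  omega

theorem cn_union (G : Gr V E) {P Q : Finset E} (h : Disjoint P Q) (X : Finset V) :
    cn G (P ∪ Q) X = cn G P X + cn G Q X := by
  unfold cn
  rw [filter_union, card_union_of_disjoint (disjoint_filter_filter h)]

theorem sep_single (x y v : V) :
    (sep x y {v} + (if x = v then 1 else 0) + (if y = v then 1 else 0)) % 2 = 0 := by
  unfold sep
  by_cases h1 : x = v <;> by_cases h2 : y = v <;> simp [h1, h2]

theorem sdiff_mono' {A P Q P' Q' : Finset E} (hp : P' ⊆ P) (hq : Q' ⊆ Q) :
    A \ (P ∪ Q) ⊆ A \ (P' ∪ Q') :=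
  sdiff_subset_sdiff (Subset.refl _) (union_subset_union hp hq)

end

theorem pf_DA (h1 : T_OT) (h2 : T_PTH) : T_DA := by
  intro V E I iV iD iE iI G A a b J r x i j hD hne hi hj hij hix hjx ih
  obtain ⟨hev, hec, hcard, hpar⟩ := hD
  have hevr : Even r := by
    rw [Nat.even_iff] at hev ⊢; omega
  have hother : ∀ k ∈ J, (a k = x ∨ b k = x) →
      ∃ c, c ≠ x ∧ ((a k = x ∧ b k = c) ∨ (a k = c ∧ b k = x)) := by
    intro k hk hkx
    rcases hkx with h | h
    · exact ⟨b k, fun h' => hne k hk (h.trans h'.symm), Or.inl ⟨h, rfl⟩⟩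
    · exact ⟨a k, fun h' => hne k hk (h'.trans h.symm), Or.inr ⟨rfl, h⟩⟩
  obtain ⟨a', ha', hia⟩ := hother i hi hix
  obtain ⟨b', hb', hjb⟩ := hother j hj hjx
  obtain ⟨P1, P2, hP1, hP2, hdis, hc1, hc2, hres⟩ := h1 V E G A r x a' b' hevr hec ha' hb'
  obtain ⟨Q1, hQ1, hp1⟩ := pt_exists hc1
  obtain ⟨Q2, hQ2, hp2⟩ := pt_exists hc2
  have hdis' : Disjoint Q1 Q2 := Disjoint.mono hQ1 hQ2 hdis
  have hQA : Q1 ∪ Q2 ⊆ A := union_subset (hQ1.trans hP1) (hQ2.trans hP2)
  have hji : j ∈ J.erase i := mem_erase.2 ⟨fun h => hij h.symm, hj⟩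
  have hDH : DH G (A \ (Q1 ∪ Q2)) a b ((J.erase i).erase j) r := by
    refine ⟨hevr, ec_mono (sdiff_mono' hQ1 hQ2) hres, ?_, ?_⟩
    · rw [card_erase_of_mem hji, card_erase_of_mem hi]; omega
    · intro v
      have e1 := hpar v
      have e2 := cn_sdiff G hQA {v}
      rw [cn_union G hdis'] at e2
      have e3 := tk_erase a b J v i hi
      have e4 := tk_erase a b (J.erase i) v j hji
      have e5 := (h2 V E G Q1 x a' hp1).2.2.2.2.1 v
      have e6 := (h2 V E G Q2 x b' hp2).2.2.2.2.1 v
      have e7 := sep_single x a' v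
      have e8 := sep_single x b' v
      have e9 : (if a i = v then 1 else 0) + (if b i = v then 1 else 0) =
          (if x = v then 1 else 0) + (if a' = v then 1 else 0) := by
        rcases hia with ⟨h, h'⟩ | ⟨h, h'⟩ <;> rw [h, h'] ; omega
      have e10 : (if a j = v then 1 else 0) + (if b j = v then 1 else 0) =
          (if x = v then 1 else 0) + (if b' = v then 1 else 0) := by
        rcases hjb with ⟨h, h'⟩ | ⟨h, h'⟩ <;> rw [h, h'] ; omega
      rw [Nat.even_iff] at e1 e5 e6 ⊢
      omega
  obtain ⟨F, hF1, hF2, hF3⟩ := ih _ hDH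
  have hFQ1 : ∀ k ∈ (J.erase i).erase j, Disjoint (F k) Q1 := by
    intro k hk
    refine disjoint_left.2 fun g hg hg' => ?_
    exact (mem_sdiff.1 (hF1 k hk hg)).2 (mem_union_left _ hg')
  have hFQ2 : ∀ k ∈ (J.erase i).erase j, Disjoint (F k) Q2 := by
    intro k hk
    refine disjoint_left.2 fun g hg hg' => ?_
    exact (mem_sdiff.1 (hF1 k hk hg)).2 (mem_union_right _ hg')
  have hmem : ∀ k ∈ J, k ≠ i → k ≠ j → k ∈ (J.erase i).erase j := fun k hk h h' =>
    mem_erase.2 ⟨h', mem_erase.2 ⟨h, hk⟩⟩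
  refine ⟨fun k => if k = i then Q1 else if k = j then Q2 else F k, ?_, ?_, ?_⟩
  · intro k hk
    by_cases hki : k = i
    · simp only [if_pos hki]; exact hQ1.trans hP1
    by_cases hkj : k = j
    · simp only [if_neg hki, if_pos hkj]; exact hQ2.trans hP2
    simp only [if_neg hki, if_neg hkj]
    exact (hF1 k (hmem k hk hki hkj)).trans sdiff_subset
  · intro k hk l hl hkl
    by_cases hki : k = i
    · have hli : l ≠ i := fun h => hkl (hki.trans h.symm)
      by_cases hlj : l = j
      · simp only [if_pos hki, if_neg hli, if_pos hlj]; exact hdis'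
      · simp only [if_pos hki, if_neg hli, if_neg hlj]
        exact (hFQ1 l (hmem l hl hli hlj)).symm
    by_cases hkj : k = j
    · have hlj : l ≠ j := fun h => hkl (hkj.trans h.symm)
      by_cases hli : l = i
      · simp only [if_neg hki, if_pos hkj, if_pos hli]; exact hdis'.symm
      · simp only [if_neg hki, if_pos hkj, if_neg hli, if_neg hlj]
        exact (hFQ2 l (hmem l hl hli hlj)).symm
    by_cases hli : l = i
    · simp only [if_neg hki, if_neg hkj, if_pos hli]
      exact hFQ1 k (hmem k hk hki hkj)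
    by_cases hlj : l = j
    · simp only [if_neg hki, if_neg hkj, if_neg hli, if_pos hlj]
      exact hFQ2 k (hmem k hk hki hkj)
    simp only [if_neg hki, if_neg hkj, if_neg hli, if_neg hlj]
    exact hF2 k (hmem k hk hki hkj) l (hmem l hl hli hlj) hkl
  · intro k hk
    by_cases hki : k = i
    · simp only [if_pos hki]
      subst hki
      rcases hia with ⟨h, h'⟩ | ⟨h, h'⟩
      · rw [h, h']; exact hp1.1
      · rw [h, h']; exact co_symm hp1.1
    by_cases hkj : k = j
    · simp only [if_neg hki, if_pos hkj]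
      subst hkj
      rcases hjb with ⟨h, h'⟩ | ⟨h, h'⟩
      · rw [h, h']; exact hp2.1
      · rw [h, h']; exact co_symm hp2.1
    simp only [if_neg hki, if_neg hkj]
    exact hF3 k (hmem k hk hki hkj)

end Pool.Agent.H59.WE
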