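import Pool.Agent.H71.WE.Targets

/-!
# Row GRE: rerouting
-/

set_option autoImplicit false
set_option linter.unusedSectionVars false

namespace Pool.Agent.H59.WE

open Finset Pool.Agent.H71.WE

section
variable {V E : Type} [Fintype V] [DecidableEq V] [DecidableEq E]

theorem cn_disj (G : Gr V E) {P Q : Finset E} (h : Disjoint P Q) (X : Finset V) :
    cn G (P ∪ Q) X = cn G P X + cn G Q X := by
  unfold cn
  rw [filter_union, card_union_of_disjoint (disjoint_filter_filter h)]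

theorem co_end {G : Gr V E} {F : Finset E} {a b : V} (h : Co G F a b) (hab : a ≠ b) :
    ∃ g ∈ F, Cr G {a} g := by
  obtain ⟨g, hg, hc⟩ := h {a} (mem_singleton_self a)
    (by rw [mem_singleton]; exact fun h => hab h.symm)
  exact ⟨g, hg, hc⟩

theorem cr_end {G : Gr V E} {a : V} {g : E} (h : Cr G {a} g) : G.s g = a ∨ G.t g = a := by
  rcases h with ⟨h, _⟩ | ⟨_, h⟩
  · exact Or.inl (mem_singleton.1 h)
  · exact Or.inr (mem_singleton.1 h)

theorem cn_pos {G : Gr V E} {F : Finset E} {X : Finset V} {g : E} (hg : g ∈ F)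
    (hc : Cr G X g) : 1 ≤ cn G F X :=
  card_pos.2 ⟨g, mem_filter.2 ⟨hg, hc⟩⟩

theorem sep_le {G : Gr V E} {F : Finset E} {a b : V} (h : Co G F a b) (X : Finset V) :
    sep a b X ≤ cn G F X := by
  unfold sep
  split_ifs with hs
  · rcases hs with ⟨h1, h2⟩ | ⟨h1, h2⟩
    · obtain ⟨g, hg, hc⟩ := h X h1 h2
      exact cn_pos hg hc
    · obtain ⟨g, hg, hc⟩ := co_symm h X h2 h1
      exact cn_pos hg hc
  · exact Nat.zero_le _

/-- the rerouted paths -/
theorem gre_core {G : Gr V E} {A : Finset E} {r : ℕ} {u v a b y : V} {e t : E}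
    {P1 P2 F1 D : Finset E} (hP1 : P1 ⊆ A) (hP2 : P2 ⊆ A) (hdis : Disjoint P1 P2)
    (ht1 : t ∉ P1) (ht2 : t ∉ P2) (he1 : e ∉ P1) (he2 : e ∉ P2) (hc2 : Co G P2 v b)
    (hF1 : F1 ⊆ P1) (hcF : Co G F1 v y) (hcF' : Co G (P1 \ F1) y a)
    (hD : D ⊆ (A \ (P1 ∪ P2 ∪ {t})).erase e) (hcD : Co G D u y)
    (hres : ∀ X : Finset V, X.Nonempty → X ≠ univ →
      r ≤ cn G ((A \ (P1 ∪ P2 ∪ {t})) \ insert e D) X + sep v y X) :
    (D ∪ (P1 \ F1)) ⊆ A ∧ P2 ⊆ A ∧ Disjoint (D ∪ (P1 \ F1)) P2 ∧ e ∉ (D ∪ (P1 \ F1)) ∧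
      e ∉ P2 ∧ t ∉ (D ∪ (P1 \ F1)) ∧ t ∉ P2 ∧ Co G (D ∪ (P1 \ F1)) u a ∧ Co G P2 v b ∧
      Ec G (A \ ((D ∪ (P1 \ F1)) ∪ P2 ∪ {e, t})) r := by
  have hDm : ∀ g ∈ D, g ≠ e ∧ g ∈ A ∧ g ∉ P1 ∧ g ∉ P2 ∧ g ≠ t := by
    intro g hg
    have h1 := mem_erase.1 (hD hg)
    have h2 := mem_sdiff.1 h1.2
    refine ⟨h1.1, h2.1, fun h => h2.2 (mem_union_left _ (mem_union_left _ h)),
      fun h => h2.2 (mem_union_left _ (mem_union_right _ h)),
      fun h => h2.2 (mem_union_right _ (mem_singleton.2 h))⟩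
  refine ⟨?_, hP2, ?_, ?_, he2, ?_, ht2, co_trans hcD hcF', hc2, ?_⟩
  · intro g hg
    rcases mem_union.1 hg with h | h
    · exact (hDm g h).2.1
    · exact hP1 (mem_sdiff.1 h).1
  · refine disjoint_left.2 fun g hg hg2 => ?_
    rcases mem_union.1 hg with h | h
    · exact (hDm g h).2.2.2.1 hg2
    · exact (disjoint_left.1 hdis) (mem_sdiff.1 h).1 hg2
  · intro hg
    rcases mem_union.1 hg with h | h
    · exact (hDm e h).1 rfl
    · exact he1 (mem_sdiff.1 h).1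
  · intro hg
    rcases mem_union.1 hg with h | h
    · exact (hDm t h).2.2.2.2 rfl
    · exact ht1 (mem_sdiff.1 h).1
  · intro X hX1 hX2
    have hd : Disjoint ((A \ (P1 ∪ P2 ∪ {t})) \ insert e D) F1 := by
      refine disjoint_left.2 fun g hg hgF => ?_
      exact (mem_sdiff.1 (mem_sdiff.1 hg).1).2
        (mem_union_left _ (mem_union_left _ (hF1 hgF)))
    have hsub : ((A \ (P1 ∪ P2 ∪ {t})) \ insert e D) ∪ F1 ⊆
        A \ ((D ∪ (P1 \ F1)) ∪ P2 ∪ {e, t}) := by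
      intro g hg
      rcases mem_union.1 hg with h | h
      · obtain ⟨h1, h2⟩ := mem_sdiff.1 h
        obtain ⟨h3, h4⟩ := mem_sdiff.1 h1
        refine mem_sdiff.2 ⟨h3, ?_⟩
        simp only [mem_union, mem_sdiff, mem_insert, mem_singleton] at h2 h4 ⊢
        tauto
      · refine mem_sdiff.2 ⟨hP1 (hF1 h), ?_⟩
        have h1 : g ∉ D := fun h' => (hDm g h').2.2.1 (hF1 h)
        have h2 : g ∉ P2 := fun h' => (disjoint_left.1 hdis) (hF1 h) h'
        have h3 : g ≠ e := fun h' => he1 (h' ▸ hF1 h)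
        have h4 : g ≠ t := fun h' => ht1 (h' ▸ hF1 h)
        simp only [mem_union, mem_sdiff, mem_insert, mem_singleton]
        tauto
    have h1 := hres X hX1 hX2
    have h2 := cn_mono G hsub X
    rw [cn_disj G hd] at h2
    have h3 := sep_le hcF X
    omega

end

theorem pf_GRE (h1 : T_PTH) (h2 : T_E) : T_GRE := by
  intro V E iV iD iE G A r u v a b e t hH hva hvb hdeg hGT
  obtain ⟨hev, hec, heA, htA, het, huv, hab, hje, hjt⟩ := hH
  obtain ⟨P1, P2, hP1, hP2, hdis, ht1, ht2, hp1, hp2, hres⟩ := hGT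
  have hp1' := h1 V E G P1 v a hp1
  have hp2' := h1 V E G P2 v b hp2
  by_cases he1 : e ∈ P1
  · refine ⟨P1.erase e, P2, (erase_subset e P1).trans hP1, hP2,
      Disjoint.mono_left (erase_subset e P1) hdis, fun h => (mem_erase.1 h).1 rfl,
      fun h => (disjoint_left.1 hdis) he1 h, fun h => ht1 (mem_erase.1 h).2, ht2,
      Or.inl ⟨hp1'.2.2.2.2.2.2 e he1 u (jn_symm hje), hp2.1⟩, ?_⟩
    refine ec_mono ?_ hres
    refine sdiff_subset_sdiff (Subset.refl _) ?_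
    intro g hg
    simp only [mem_union, mem_erase, mem_insert, mem_singleton] at hg ⊢
    rcases hg with (h | h) | (h | h)
    · exact Or.inl (Or.inl h.2)
    · exact Or.inl (Or.inr h)
    · exact Or.inl (Or.inl (h ▸ he1))
    · exact Or.inr h
  by_cases he2 : e ∈ P2
  · refine ⟨P2.erase e, P1, (erase_subset e P2).trans hP2, hP1,
      Disjoint.mono_left (erase_subset e P2) hdis.symm, fun h => (mem_erase.1 h).1 rfl,
      he1, fun h => ht2 (mem_erase.1 h).2, ht1,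
      Or.inr ⟨hp2'.2.2.2.2.2.2 e he2 u (jn_symm hje), hp1.1⟩, ?_⟩
    refine ec_mono ?_ hres
    refine sdiff_subset_sdiff (Subset.refl _) ?_
    intro g hg
    simp only [mem_union, mem_erase, mem_insert, mem_singleton] at hg ⊢
    rcases hg with (h | h) | (h | h)
    · exact Or.inl (Or.inr h.2)
    · exact Or.inl (Or.inl h)
    · exact Or.inl (Or.inr (h ▸ he2))
    · exact Or.inr h
  -- the ear
  obtain ⟨g1, hg1, hgc1⟩ := co_end hp1.1 hva
  obtain ⟨g2, hg2, hgc2⟩ := co_end hp2.1 hvb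
  obtain ⟨K, hKdef⟩ : ∃ K : Finset V, ∀ y, y ∈ K ↔
      ∃ g ∈ P1 ∪ P2 ∪ {t}, G.s g = y ∨ G.t g = y := by
    classical
    exact ⟨univ.filter (fun y => ∃ g ∈ P1 ∪ P2 ∪ {t}, G.s g = y ∨ G.t g = y),
      fun y => by simp⟩
  have hvK : v ∈ K := (hKdef v).2
    ⟨g1, mem_union_left _ (mem_union_left _ hg1), cr_end hgc1⟩
  have hFA : P1 ∪ P2 ∪ {t} ⊆ A :=
    union_subset (union_subset hP1 hP2) (singleton_subset_iff.2 htA)
  have hEH : EH G (A \ (P1 ∪ P2 ∪ {t})) r K v u e := by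
    refine ⟨hev, hvK, huv, ?_, jn_symm hje, ?_, hres, ?_⟩
    · refine mem_sdiff.2 ⟨heA, ?_⟩
      simp only [mem_union, mem_singleton]
      tauto
    · have e1 := cn_sdiff G hFA {v}
      have e2 := cn_mono G (subset_union_left : P1 ∪ P2 ⊆ P1 ∪ P2 ∪ {t}) {v}
      rw [cn_disj G hdis] at e2
      have e3 := cn_pos hg1 hgc1
      have e4 := cn_pos hg2 hgc2
      omega
    · intro X hX hXK
      have e1 := cn_sdiff G hFA X
      have e2 : cn G (P1 ∪ P2 ∪ {t}) X = 0 := by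
        unfold cn
        rw [card_eq_zero, filter_eq_empty_iff]
        intro g hg hc
        have hK1 : G.s g ∈ K := (hKdef _).2 ⟨g, hg, Or.inl rfl⟩
        have hK2 : G.t g ∈ K := (hKdef _).2 ⟨g, hg, Or.inr rfl⟩
        rcases hc with ⟨h, _⟩ | ⟨_, h⟩
        · exact (disjoint_left.1 hXK) h hK1
        · exact (disjoint_left.1 hXK) h hK2
      have e3 := hec X hX (fun h => (disjoint_left.1 hXK) (h ▸ mem_univ v) hvK)
      omega
  obtain ⟨y, hyK, hyv, D, hD, hcD, -, hresD⟩ := h2 V E r G _ K v u e hEH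
  -- `y` is on one of the two paths
  have hy : (∃ g ∈ P1, G.s g = y ∨ G.t g = y) ∨ (∃ g ∈ P2, G.s g = y ∨ G.t g = y) := by
    obtain ⟨g, hg, hgy⟩ := (hKdef y).1 hyK
    rcases mem_union.1 hg with h | h
    · rcases mem_union.1 h with h | h
      · exact Or.inl ⟨g, h, hgy⟩
      · exact Or.inr ⟨g, h, hgy⟩
    · rw [mem_singleton.1 h] at hgy
      have hyab : y = a ∨ y = b := by
        rcases hjt with ⟨h3, h4⟩ | ⟨h3, h4⟩ <;> rcases hgy with h5 | h5
        · exact Or.inl (h5.symm.trans h3)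
        · exact Or.inr (h5.symm.trans h4)
        · exact Or.inr (h5.symm.trans h3)
        · exact Or.inl (h5.symm.trans h4)
      rcases hyab with h' | h'
      · rw [h']
        obtain ⟨g', hg', hgc'⟩ := co_end (co_symm hp1.1) (fun h => hva h.symm)
        exact Or.inl ⟨g', hg', cr_end hgc'⟩
      · rw [h']
        obtain ⟨g', hg', hgc'⟩ := co_end (co_symm hp2.1) (fun h => hvb h.symm)
        exact Or.inr ⟨g', hg', cr_end hgc'⟩
  rcases hy with hy | hy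
  · obtain ⟨F1, hF1, hcF, hcF'⟩ := hp1'.2.2.2.2.2.1 y hy
    obtain ⟨k1, k2, k3, k4, k5, k6, k7, k8, k9, k10⟩ :=
      gre_core hP1 hP2 hdis ht1 ht2 he1 he2 hp2.1 hF1 hcF hcF' hD hcD hresD
    exact ⟨_, _, k1, k2, k3, k4, k5, k6, k7, Or.inl ⟨k8, k9⟩, k10⟩
  · obtain ⟨F1, hF1, hcF, hcF'⟩ := hp2'.2.2.2.2.2.1 y hy
    rw [union_comm P1 P2] at hD hresD
    obtain ⟨k1, k2, k3, k4, k5, k6, k7, k8, k9, k10⟩ :=
      gre_core hP2 hP1 hdis.symm ht2 ht1 he2 he1 hp1.1 hF1 hcF hcF' hD hcD hresD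
    exact ⟨_, _, k1, k2, k3, k4, k5, k6, k7, Or.inr ⟨k8, k9⟩, k10⟩

end Pool.Agent.H59.WE
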